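import Pool.Agent.Lib.MP_5b31c3_gt.Final

/-!
The Kauffman bracket skein module of every Dehn surgery on a two-bridge knot along a slope that
is not a boundary slope is finitely generated over any Noetherian coefficient ring.
-/

open Pool.Agent.Lib.MP_5b31c3_gt

theorem Pool.Agent.Results.MP_5b31c3_gt.TwoBridge.result {R : Type*} [CommRing R]
    [IsNoetherianRing R] (A : Rˣ) (w : List Bool) (x : Bool) (hk : IsKnot (true :: w))
    (hx : Oriented (true :: w) x) (a : ℤ) (l : List ℤ) (hden : (coeff (a :: l)).2 ≠ 0)
    (hs : ¬BoundarySlope (((frac (true :: w)).1 : ℚ) / (frac (true :: w)).2)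
      (((coeff (a :: l)).1 : ℚ) / (coeff (a :: l)).2)) :
    Module.Finite R (Skein A (surgery (true :: w) (a - writhe (true :: w) (x, !x, true)) l)) :=
  two_bridge A w x hk hx a l hden hs
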